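import Mathlib

set_option autoImplicit false

namespace Pool.Agent.MP38b55aLow

/-- Two additive characters of `ZMod p` with values in a commutative ring. -/
structure Chars (p : ℕ) (S : Type) [CommRing S] where
  e : ZMod p → S
  f : ZMod p → S
  e0 : e 0 = 1
  f0 : f 0 = 1
  eadd : ∀ a b, e (a + b) = e a * e b
  fadd : ∀ a b, f (a + b) = f a * f b

variable {p : ℕ} {S : Type} [CommRing S]

/-- The multiplier on the fibre `i`. -/
def Chars.chi (c : Chars p S) (u : ZMod p → ZMod p) (i : ZMod p) : S := c.e (u i) * c.f (u (i + 1))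

theorem Chars.chi_zero (c : Chars p S) (i : ZMod p) : c.chi 0 i = 1 := by
  simp [Chars.chi, c.e0, c.f0]

theorem Chars.chi_add (c : Chars p S) (u v : ZMod p → ZMod p) (i : ZMod p) :
    c.chi (u + v) i = c.chi u i * c.chi v i := by
  simp only [Chars.chi, Pi.add_apply, c.eadd, c.fadd]; ring

theorem Chars.chi_shift (c : Chars p S) (u : ZMod p → ZMod p) (i j : ZMod p) :
    c.chi (fun k => u (k + j)) i = c.chi u (i + j) := by
  simp only [Chars.chi]; rw [add_right_comm i 1 j]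

/-- The maps `(i, y) ↦ (i + j, chi u i * y + b i)`. -/
@[ext] structure Gp (c : Chars p S) where
  j : ZMod p
  u : ZMod p → ZMod p
  b : ZMod p → S

variable {c : Chars p S}

instance : Mul (Gp c) := ⟨fun g h => ⟨g.j + h.j, (fun i => g.u (i + h.j)) + h.u,
  fun i => c.chi g.u (i + h.j) * h.b i + g.b (i + h.j)⟩⟩
instance : One (Gp c) := ⟨⟨0, 0, 0⟩⟩
instance : Inv (Gp c) := ⟨fun g => ⟨-g.j, fun i => -g.u (i + -g.j),
  fun i => -(c.chi (-g.u) (i + -g.j) * g.b (i + -g.j))⟩⟩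

@[simp] theorem mul_j (g h : Gp c) : (g * h).j = g.j + h.j := rfl
@[simp] theorem mul_u (g h : Gp c) : (g * h).u = (fun i => g.u (i + h.j)) + h.u := rfl
@[simp] theorem mul_b (g h : Gp c) (i : ZMod p) :
    (g * h).b i = c.chi g.u (i + h.j) * h.b i + g.b (i + h.j) := rfl
@[simp] theorem one_j : (1 : Gp c).j = 0 := rfl
@[simp] theorem one_u : (1 : Gp c).u = 0 := rfl
@[simp] theorem one_b : (1 : Gp c).b = 0 := rfl
@[simp] theorem inv_j (g : Gp c) : g⁻¹.j = -g.j := rfl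
@[simp] theorem inv_u (g : Gp c) (i : ZMod p) : g⁻¹.u i = -g.u (i + -g.j) := rfl
@[simp] theorem inv_b (g : Gp c) (i : ZMod p) :
    g⁻¹.b i = -(c.chi (-g.u) (i + -g.j) * g.b (i + -g.j)) := rfl

instance : Group (Gp c) := Group.ofLeftAxioms
  (fun g h k => by
    ext i
    · simp [add_assoc]
    · simp [add_assoc, add_comm k.j h.j]
    · simp only [mul_b, mul_u, mul_j, c.chi_add, c.chi_shift]
      rw [add_comm h.j k.j, ← add_assoc i k.j h.j]; ring)
  (fun g => by
    ext i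
    · simp
    · simp
    · simp [c.chi_zero])
  (fun g => by
    ext i
    · simp
    · simp
    · have h : g⁻¹.u = fun k => (-g.u) (k + -g.j) := rfl
      rw [mul_b, h, c.chi_shift]; simp)

instance [NeZero p] [Finite S] : Finite (Gp c) :=
  Finite.of_injective (fun g : Gp c => (g.j, g.u, g.b)) (fun g h e => by
    simp only [Prod.mk.injEq] at e
    exact Gp.ext e.1 e.2.1 e.2.2)

theorem pow_j (g : Gp c) (n : ℕ) : (g ^ n).j = n * g.j := by
  induction n with
  | zero => simp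
  | succ n ih => rw [pow_succ, mul_j, ih]; push_cast; ring

theorem pow_u (g : Gp c) (n : ℕ) (i : ZMod p) :
    (g ^ n).u i = ∑ k ∈ Finset.range n, g.u (i + k * g.j) := by
  induction n with
  | zero => simp
  | succ n ih => rw [pow_succ', mul_u, Pi.add_apply, ih, pow_j, Finset.sum_range_succ, add_comm]

theorem pow_b0 (g : Gp c) (hg : g.j = 0) (n : ℕ) (i : ZMod p) :
    (g ^ n).b i = (∑ k ∈ Finset.range n, c.chi g.u i ^ k) * g.b i := by
  induction n with
  | zero => simp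
  | succ n ih =>
    rw [pow_succ', mul_b, ih, pow_j, hg, mul_zero, add_zero, Finset.sum_range_succ']
    simp only [pow_succ', ← Finset.mul_sum]; ring

theorem pow_bz (g : Gp c) (hg : g.b = 0) (n : ℕ) : (g ^ n).b = 0 := by
  induction n with
  | zero => simp
  | succ n ih => funext i; rw [pow_succ', mul_b, ih, hg]; simp

theorem pow_p_j (g : Gp c) : (g ^ p).j = 0 := by rw [pow_j]; simp

theorem pow_p_u0 (g : Gp c) (hg : g.j = 0) : (g ^ p).u = 0 := by
  funext i; rw [pow_u]; simp [hg]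

theorem sum_range_eq [NeZero p] {M : Type} [AddCommMonoid M] (F : ZMod p → M) :
    ∑ k ∈ Finset.range p, F (k : ZMod p) = ∑ k, F k := by
  refine Finset.sum_bij' (fun k _ => (k : ZMod p)) (fun z _ => z.val) ?_ ?_ ?_ ?_ ?_
  · intro a _; exact Finset.mem_univ _
  · intro a _; exact Finset.mem_range.2 (ZMod.val_lt a)
  · intro a ha; exact ZMod.val_cast_of_lt (Finset.mem_range.1 ha)
  · intro a _; exact ZMod.natCast_zmod_val a
  · intro a _; rfl

theorem pow_p_u1 [Fact p.Prime] (g : Gp c) (hg : g.j ≠ 0) (i : ZMod p) :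
    (g ^ p).u i = ∑ k, g.u k := by
  rw [pow_u, sum_range_eq (fun k => g.u (i + k * g.j))]
  exact Equiv.sum_comp ((Equiv.mulRight₀ g.j hg).trans (Equiv.addLeft i)) g.u

theorem pow_cube (hp : (p : S) = 0) (g : Gp c) : g ^ (p ^ 3) = 1 := by
  have h1 : (g ^ p).j = 0 := pow_p_j g
  have h2 : ((g ^ p) ^ p).u = 0 := pow_p_u0 _ h1
  have h3 : ((g ^ p) ^ p).j = 0 := pow_p_j _
  rw [show p ^ 3 = p * p * p by ring, pow_mul, pow_mul]
  refine Gp.ext (pow_p_j _) (pow_p_u0 _ h3) ?_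
  funext i
  rw [pow_b0 _ h3, h2, c.chi_zero]; simp [hp]

/-- The first factor. -/
def subA (c : Chars p S) : Subgroup (Gp c) where
  carrier := {g | g.j = 0 ∧ ∀ i, i ≠ 0 → g.u i = 0}
  mul_mem' := by
    rintro g h ⟨g1, g2⟩ ⟨h1, h2⟩
    exact ⟨by simp [g1, h1], fun i hi => by simp [h1, g2 i hi, h2 i hi]⟩
  one_mem' := ⟨rfl, fun _ _ => rfl⟩
  inv_mem' := by
    rintro g ⟨g1, g2⟩
    exact ⟨by simp [g1], fun i hi => by simp [g1, g2 i hi]⟩

/-- The second factor. -/
def subB [NeZero p] (c : Chars p S) : Subgroup (Gp c) where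
  carrier := {g | g.b = 0 ∧ ∑ i, g.u i = 0}
  mul_mem' := by
    rintro g h ⟨g1, g2⟩ ⟨h1, h2⟩
    refine ⟨by funext i; simp [g1, h1], ?_⟩
    simp only [mul_u, Pi.add_apply, Finset.sum_add_distrib, h2, add_zero]
    rw [← g2]; exact Equiv.sum_comp (Equiv.addRight h.j) g.u
  one_mem' := ⟨rfl, by simp⟩
  inv_mem' := by
    rintro g ⟨g1, g2⟩
    refine ⟨by funext i; simp [g1], ?_⟩
    simp only [inv_u, Finset.sum_neg_distrib, neg_eq_zero]
    rw [← g2]; exact Equiv.sum_comp (Equiv.addRight (-g.j)) g.u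

theorem subB_pow [Fact p.Prime] (g : Gp c) (hg : g ∈ subB c) : g ^ p = 1 := by
  refine Gp.ext (pow_p_j g) ?_ (pow_bz g hg.1 p)
  by_cases h : g.j = 0
  · exact pow_p_u0 g h
  · funext i; rw [pow_p_u1 g h, hg.2]; rfl

theorem subA_pow [Fact p.Prime] (he : ∀ a, ∑ k ∈ Finset.range p, c.e a ^ k = 0)
    (hf : ∀ a, ∑ k ∈ Finset.range p, c.f a ^ k = 0) (g : Gp c) (hg : g ∈ subA c) : g ^ p = 1 := by
  refine Gp.ext (pow_p_j g) (pow_p_u0 g hg.1) ?_
  funext i
  rw [pow_b0 g hg.1]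
  by_cases h : i = 0
  · have h1 : g.u (i + 1) = 0 := hg.2 _ (by rw [h, zero_add]; exact one_ne_zero)
    simp only [Chars.chi, h1, c.f0, mul_one, he]; simp
  · simp only [Chars.chi, hg.2 i h, c.e0, one_mul, hf]; simp

theorem factor [NeZero p] (g : Gp c) : ∃ a ∈ subA c, ∃ b ∈ subB c, g = a * b := by
  refine ⟨⟨0, Pi.single 0 (∑ i, g.u i), fun i => g.b (i + -g.j)⟩,
    ⟨rfl, fun i hi => Pi.single_eq_of_ne hi _⟩,
    ⟨g.j, g.u - fun i => (Pi.single 0 (∑ i, g.u i) : ZMod p → ZMod p) (i + g.j), 0⟩, ⟨rfl, ?_⟩, ?_⟩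
  · simp only [Pi.sub_apply, Finset.sum_sub_distrib]
    rw [sub_eq_zero]
    have := Equiv.sum_comp (Equiv.addRight g.j) (Pi.single 0 (∑ i, g.u i) : ZMod p → ZMod p)
    simp only [Equiv.coe_addRight] at this
    rw [this]; simp
  · ext i
    · simp
    · simp
    · simp

theorem Chars.chi_unit (c : Chars p S) (u : ZMod p → ZMod p) (i : ZMod p) : IsUnit (c.chi u i) :=
  IsUnit.of_mul_eq_one (c.chi (-u) i) (by rw [← c.chi_add, add_neg_cancel, c.chi_zero])

/-- The element of order `p ^ 3`. -/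
def big (c : Chars p S) : Gp c := ⟨1, Pi.single 0 1, Pi.single 0 1⟩

theorem big_unit [Fact p.Prime] (n : ℕ) (hn : n < p) : IsUnit ((big c ^ (n + 1)).b 0) := by
  induction n with
  | zero => simp [big]
  | succ n ih =>
    have h : ((n + 1 : ℕ) : ZMod p) ≠ 0 := by
      rw [Ne, ZMod.natCast_eq_zero_iff]
      exact Nat.not_dvd_of_pos_of_lt (Nat.succ_pos n) hn
    have h2 : (big c).b (0 + (big c ^ (n + 1)).j) = 0 := by
      rw [pow_j, zero_add]
      exact Pi.single_eq_of_ne (by simpa [big] using h) _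
    rw [pow_succ', mul_b, h2, add_zero]
    exact (c.chi_unit _ _).mul (ih (by omega))

theorem big_pow [Fact p.Prime] (hc : ∑ k ∈ Finset.range p, (c.e 1 * c.f 1) ^ k ≠ 0) :
    big c ^ (p ^ 2) ≠ 1 := by
  intro h
  have hp : p.Prime := Fact.out
  have hu : ∀ i, (big c ^ p).u i = 1 := fun i => by
    rw [pow_p_u1 _ (show (big c).j ≠ 0 from one_ne_zero)]; simp [big]
  have h1 : ((big c ^ p) ^ p).b 0 = 0 := by rw [← pow_mul, ← pow_two, h]; rfl
  rw [pow_b0 _ (pow_p_j _)] at h1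
  have h2 := big_unit (c := c) (p - 1) (Nat.sub_lt hp.pos one_pos)
  rw [Nat.sub_add_cancel hp.one_le] at h2
  apply hc
  simpa only [Chars.chi, hu] using (h2.mul_left_eq_zero).1 h1

theorem exponent_eq [Fact p.Prime] (hp0 : (p : S) = 0)
    (hc : ∑ k ∈ Finset.range p, (c.e 1 * c.f 1) ^ k ≠ 0) : Monoid.exponent (Gp c) = p ^ 3 := by
  have hp : p.Prime := Fact.out
  have h1 : Monoid.exponent (Gp c) ∣ p ^ 3 :=
    Monoid.exponent_dvd_of_forall_pow_eq_one (pow_cube hp0)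
  obtain ⟨k, hk, e⟩ := (Nat.dvd_prime_pow hp).1 h1
  rcases Nat.lt_or_ge k 3 with h | h
  · exfalso
    apply big_pow hc
    apply Monoid.exponent_dvd_iff_forall_pow_eq_one.1
    rw [e]; exact pow_dvd_pow p (by omega)
  · rw [e, le_antisymm hk h]

end Pool.Agent.MP38b55aLow
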