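import Pool.Agent.MP38b55aLow.Grp

set_option autoImplicit false

namespace Pool.Agent.MP38b55aLow

open Polynomial TrivSqZeroExt

theorem geom_char (p : ℕ) [Fact p.Prime] {S : Type} [CommRing S] [Algebra (ZMod p) S] (x : S) :
    ∑ k ∈ Finset.range p, x ^ k = (x - 1) ^ (p - 1) := by
  have hp : p.Prime := Fact.out
  have h : ∑ k ∈ Finset.range p, (X : (ZMod p)[X]) ^ k = (X - 1) ^ (p - 1) := by
    apply mul_right_cancel₀ (b := (X - 1 : (ZMod p)[X])) (X_sub_C_ne_zero 1)
    rw [geom_sum_mul, ← pow_succ, Nat.sub_add_cancel hp.one_le, sub_pow_char, one_pow]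
  simpa [map_sum] using congrArg (aeval x) h

/-- The truncated polynomial ring `F_p[y]/(y^(p-1))`. -/
abbrev Rg (p : ℕ) : Type := AdjoinRoot ((X : (ZMod p)[X]) ^ (p - 1))

/-- The class of the variable. -/
noncomputable def yy (p : ℕ) : Rg p := AdjoinRoot.root _

theorem yy_pow (p : ℕ) : yy p ^ (p - 1) = 0 := by
  have := AdjoinRoot.mk_self (f := (X : (ZMod p)[X]) ^ (p - 1))
  rwa [map_pow, AdjoinRoot.mk_X] at this

theorem yy_ne (p : ℕ) [Fact p.Prime] : yy p ^ (p - 2) ≠ 0 := by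
  have hp : p.Prime := Fact.out
  intro h
  rw [yy, ← AdjoinRoot.mk_X, ← map_pow, AdjoinRoot.mk_eq_zero] at h
  have h2 := natDegree_le_of_dvd h (pow_ne_zero _ X_ne_zero)
  rw [natDegree_X_pow, natDegree_X_pow] at h2
  have := hp.two_le
  omega

instance (p : ℕ) [Fact p.Prime] : Finite (Rg p) :=
  haveI := (monic_X_pow (R := ZMod p) (p - 1)).finite_adjoinRoot
  Module.finite_of_finite (ZMod p)

theorem one_add_yy (p : ℕ) [Fact p.Prime] : (1 + yy p) ^ p = 1 := by
  have hp : p.Prime := Fact.out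
  have h := mul_geom_sum (1 + yy p) p
  rw [geom_char p, add_sub_cancel_left, yy_pow, mul_zero] at h
  exact (sub_eq_zero.1 h.symm)

/-- The two characters with values in the dual numbers over `Rg p`. -/
noncomputable def ch (p : ℕ) [Fact p.Prime] : Chars p (TrivSqZeroExt (Rg p) (Rg p)) where
  e a := 1 + inr (algebraMap (ZMod p) (Rg p) a)
  f a := inl ((1 + yy p) ^ a.val)
  e0 := by simp
  f0 := by simp
  eadd a b := by ext <;> simp [add_comm]
  fadd a b := by
    rw [← inl_mul, ← pow_add, ZMod.val_add, ← pow_eq_pow_mod _ (one_add_yy p)]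

theorem ch_e (p : ℕ) [Fact p.Prime] (h2 : p ≠ 2) (a : ZMod p) :
    ∑ k ∈ Finset.range p, (ch p).e a ^ k = 0 := by
  have hp : p.Prime := Fact.out
  have := hp.two_le
  rw [geom_char p]
  simp only [ch, add_sub_cancel_left]
  exact pow_eq_zero_of_le (show 2 ≤ p - 1 by omega) (by rw [pow_two, inr_mul_inr])

theorem ch_f (p : ℕ) [Fact p.Prime] (a : ZMod p) :
    ∑ k ∈ Finset.range p, (ch p).f a ^ k = 0 := by
  rw [geom_char p]
  simp only [ch]
  rw [← inl_one, ← inl_sub, inl_pow, ← mul_geom_sum, add_sub_cancel_left, mul_pow, yy_pow,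
    zero_mul, inl_zero]

theorem ch_c (p : ℕ) [Fact p.Prime] :
    ∑ k ∈ Finset.range p, ((ch p).e 1 * (ch p).f 1) ^ k ≠ 0 := by
  have hp : p.Prime := Fact.out
  have := hp.two_le
  rw [geom_char p]
  intro h
  have h1 := congrArg snd h
  rw [snd_pow] at h1
  have hv : (1 : ZMod p).val = 1 := ZMod.val_one p
  have e1 : fst ((ch p).e 1 * (ch p).f 1 - 1) = yy p := by simp [ch, hv]
  have e2 : snd ((ch p).e 1 * (ch p).f 1 - 1) = 1 + yy p := by simp [ch, hv]
  rw [e1, e2, snd_zero, smul_eq_mul, nsmul_eq_mul, Nat.cast_pred hp.pos] at h1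
  have hp0 : (p : Rg p) = 0 := by
    rw [← map_natCast (algebraMap (ZMod p) (Rg p)), ZMod.natCast_self, map_zero]
  have hu : IsUnit (1 + yy p) := IsUnit.of_pow_eq_one (one_add_yy p) hp.ne_zero
  rw [hp0, zero_sub, neg_one_mul, neg_eq_zero, hu.mul_left_eq_zero] at h1
  exact yy_ne p h1

end Pool.Agent.MP38b55aLow
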